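import Pool.Agent.Q218.DC.Fin

/-!
# Decorrelation of scales and an almost sure limit theorem for the exploration path

Critical bond percolation on `ℤ × ℕ`, the edges `[x, x + 1]` of the real axis open for `x < 0` and
closed for `x ≥ 0`. The exploration path starts next to the origin and keeps the open cluster `C_-`
of the negative half-axis on its left; `gam ω k` is its point after `k` steps, and `curve n ω` is
the curve `n ^ (-4/7) γ(n t)`, `0 ≤ t ≤ 1`, whose law is `lawH n`.

* Decorrelation: the first `m` steps and the curve on scale `n` are independent up to an error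
  `C (m / n) ^ c`.
* Almost sure limit theorem: for almost every configuration, for all bounded continuous functions
  `g` at the same time, the logarithmic average of `g (curve n ω)` over `n ≤ N` differs from the
  logarithmic average of the expectations by `o(1)`.
* So almost every single path knows all limits in law: along every sequence `N_i` the logarithmic
  averages of the laws `lawH n` converge weakly to `μ` if and only if the logarithmic averages of
  the point masses at `curve n ω` do. If `lawH n` converges to `μ` in law, then for almost every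
  configuration the averages of the point masses converge to `μ`.

Definitions: `Pool.Agent.H984R4.HN.HPDefs` (`Conf`, `perc`, `opn`, `step`, `path`, `place`, `gam`,
`curve`), `Pool.Agent.H984R4.HN.FinalH` (`lawH`), `Pool.Agent.H984R4.NP.Model` (`pl`, `clamp`).
-/

set_option autoImplicit false

namespace Pool.Agent.Results.MP_6c8efb_pr.AlmostSureLimit

open H984H MeasureTheory Filter Topology Pool.Agent.Q218.DC

/-- The logarithmic average of `a n` over `1 ≤ n ≤ N`. -/
noncomputable def logAvg (a : ℕ → ℝ) (N : ℕ) : ℝ :=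
  (∑ n ∈ Finset.Icc 1 N, 1 / (n : ℝ) * a n) / Real.log N

theorem lav_eq (g : C(unitInterval, ℂ) → ℝ) (gc : Continuous g) (N : ℕ) (ω : Conf) :
    lav perc curve g N ω = logAvg (fun n => g (curve n ω)) N -
      logAvg (fun n => ∫ f, g f ∂(lawH n : Measure C(unitInterval, ℂ))) N := by
  unfold lav logAvg
  rw [← sub_div, ← Finset.sum_sub_distrib]
  congr 1
  apply Finset.sum_congr rfl
  intro n _
  beta_reduce
  rw [lawH_int n gc]
  ring

/-- Logarithmic averages of a convergent sequence. -/
theorem logAvg_tendsto {a : ℕ → ℝ} {l : ℝ} (h : Tendsto a atTop (𝓝 l)) :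
    Tendsto (logAvg a) atTop (𝓝 l) := by
  -- the average of the constant `1`
  have h1 : Tendsto (logAvg fun _ => 1) atTop (𝓝 1) := by
    have hlog := Real.tendsto_log_atTop.comp (tendsto_natCast_atTop_atTop (R := ℝ))
    have hup : Tendsto (fun N : ℕ => 1 / Real.log N + 1) atTop (𝓝 (0 + 1)) :=
      (tendsto_const_nhds.div_atTop hlog).add_const 1
    rw [zero_add] at hup
    refine tendsto_of_tendsto_of_tendsto_of_le_of_le' tendsto_const_nhds hup ?_ ?_
    · filter_upwards [eventually_ge_atTop 3] with N hN
      have hN3 : (3 : ℝ) ≤ N := by exact_mod_cast hN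
      have hl : 0 < Real.log N := Real.log_pos (by linarith)
      unfold logAvg
      rw [le_div_iff₀ hl, one_mul]
      have h2 := log_add_one_le_harmonic N
      rw [harmonic_eq_sum_Icc] at h2
      push_cast at h2
      have h3 : Real.log N ≤ Real.log ((N : ℝ) + 1) := Real.log_le_log (by linarith) (by linarith)
      simp only [one_div, mul_one]
      linarith
    · filter_upwards [eventually_ge_atTop 3] with N hN
      have hN3 : (3 : ℝ) ≤ N := by exact_mod_cast hN
      have hl : 0 < Real.log N := Real.log_pos (by linarith)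
      unfold logAvg
      rw [div_le_iff₀ hl, add_mul, one_mul, one_div_mul_cancel hl.ne']
      have h2 := harm_le (N := N) (by omega)
      simpa using h2
  have hlog := Real.tendsto_log_atTop.comp (tendsto_natCast_atTop_atTop (R := ℝ))
  rw [Metric.tendsto_atTop]
  intro ε hε
  obtain ⟨N0, hN0⟩ := Metric.tendsto_atTop.1 h (ε / 4) (by positivity)
  -- the first terms
  set A : ℝ := ∑ n ∈ Finset.Icc 1 N0, 1 / (n : ℝ) * |a n - l| with hA
  have hA0 : 0 ≤ A := Finset.sum_nonneg fun n _ => by positivity
  have e1 : ∀ᶠ N : ℕ in atTop, A / Real.log N < ε / 4 :=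
    (tendsto_const_nhds.div_atTop hlog).eventually (gt_mem_nhds (by positivity))
  have e2 : ∀ᶠ N : ℕ in atTop, logAvg (fun _ => 1) N < 2 := h1.eventually (gt_mem_nhds (by norm_num))
  have e3 : ∀ᶠ N : ℕ in atTop, |l| * |logAvg (fun _ => 1) N - 1| < ε / 4 := by
    have h5 : Tendsto (fun N => |l| * |logAvg (fun _ => 1) N - 1|) atTop (𝓝 (|l| * |(1 : ℝ) - 1|)) :=
      ((h1.sub_const 1).abs).const_mul _
    rw [sub_self, abs_zero, mul_zero] at h5
    exact h5.eventually (gt_mem_nhds (by positivity))
  apply eventually_atTop.1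
  filter_upwards [e1, e2, e3, eventually_ge_atTop 3, eventually_ge_atTop N0] with N g1 g2 g3 hN hNN
  have hN3 : (3 : ℝ) ≤ N := by exact_mod_cast hN
  have hl : 0 < Real.log N := Real.log_pos (by linarith)
  rw [Real.dist_eq]
  have key : |logAvg a N - l * logAvg (fun _ => 1) N| ≤
      A / Real.log N + ε / 4 * logAvg (fun _ => 1) N := by
    have e4 : logAvg a N - l * logAvg (fun _ => 1) N =
        (∑ n ∈ Finset.Icc 1 N, 1 / (n : ℝ) * (a n - l)) / Real.log N := by
      unfold logAvg
      rw [← mul_div_assoc l _ (Real.log N), ← sub_div, Finset.mul_sum, ← Finset.sum_sub_distrib]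
      congr 1
      apply Finset.sum_congr rfl
      intro n _
      ring
    have e5 : A / Real.log N + ε / 4 * logAvg (fun _ => 1) N =
        (A + ∑ n ∈ Finset.Icc 1 N, 1 / (n : ℝ) * (ε / 4)) / Real.log N := by
      unfold logAvg
      rw [← mul_div_assoc (ε / 4) _ (Real.log N), ← add_div, Finset.mul_sum]
      congr 2
      apply Finset.sum_congr rfl
      intro n _
      ring
    rw [e4, e5, abs_div, abs_of_pos hl]
    apply div_le_div_of_nonneg_right _ hl.le
    refine (Finset.abs_sum_le_sum_abs _ _).trans ?_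
    have e6 : ∀ n ∈ Finset.Icc 1 N, |1 / (n : ℝ) * (a n - l)| ≤
        (if n ≤ N0 then 1 / (n : ℝ) * |a n - l| else 0) + 1 / (n : ℝ) * (ε / 4) := by
      intro n _
      rw [abs_mul, abs_of_nonneg (by positivity : (0 : ℝ) ≤ 1 / (n : ℝ))]
      split_ifs with hn
      · have : (0 : ℝ) ≤ 1 / (n : ℝ) * (ε / 4) := by positivity
        linarith
      · rw [zero_add]
        apply mul_le_mul_of_nonneg_left _ (by positivity)
        have := hN0 n (by omega)
        rw [Real.dist_eq] at this
        exact this.le
    refine (Finset.sum_le_sum e6).trans ?_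
    rw [Finset.sum_add_distrib, ← Finset.sum_filter]
    apply add_le_add _ le_rfl
    apply Finset.sum_le_sum_of_subset_of_nonneg
    · intro n hn
      rw [Finset.mem_filter, Finset.mem_Icc] at hn
      rw [Finset.mem_Icc]
      omega
    · intro n _ _
      positivity
  have e7 : logAvg a N - l = (logAvg a N - l * logAvg (fun _ => 1) N) +
      l * (logAvg (fun _ => 1) N - 1) := by ring
  rw [e7]
  refine lt_of_le_of_lt (abs_add_le _ _) ?_
  rw [abs_mul l]
  have e8 : ε / 4 * logAvg (fun _ => 1) N ≤ ε / 4 * 2 := mul_le_mul_of_nonneg_left g2.le (by positivity)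
  linarith

theorem result :
    -- decorrelation of scales
    (∃ C c : ℝ, 0 < C ∧ 0 < c ∧ ∀ m n : ℕ, 1 ≤ m → m ≤ n →
      ∀ h : (ℕ → ℂ) → ℝ, Measurable h → (∀ x y : ℕ → ℂ, (∀ k ≤ m, x k = y k) → h x = h y) →
      (∀ x, |h x| ≤ 1) → ∀ g : C(unitInterval, ℂ) → ℝ, (∀ f, |g f| ≤ 1) →
      (∀ f f', |g f - g f'| ≤ dist f f') →
      |∫ ω, h (gam ω) * g (curve n ω) ∂perc -
        (∫ ω, h (gam ω) ∂perc) * ∫ ω, g (curve n ω) ∂perc| ≤ C * ((m : ℝ) / n) ^ c) ∧
    -- almost sure limit theorem
    (∀ᵐ ω ∂perc, ∀ g : C(unitInterval, ℂ) → ℝ, Continuous g → (∃ G : ℝ, ∀ f, |g f| ≤ G) →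
      Tendsto (fun N => logAvg (fun n => g (curve n ω)) N -
        logAvg (fun n => ∫ f, g f ∂(lawH n : Measure C(unitInterval, ℂ))) N) atTop (𝓝 0)) ∧
    -- the limits of the averages of the laws and of the point masses are the same
    (∀ᵐ ω ∂perc, ∀ φ : ℕ → ℕ, Tendsto φ atTop atTop →
      ∀ μ : ProbabilityMeasure C(unitInterval, ℂ),
      ((∀ g : C(unitInterval, ℂ) → ℝ, Continuous g → (∃ G : ℝ, ∀ f, |g f| ≤ G) →
        Tendsto (fun i => logAvg (fun n => g (curve n ω)) (φ i)) atTop (𝓝 (∫ f, g f ∂μ))) ↔
      (∀ g : C(unitInterval, ℂ) → ℝ, Continuous g → (∃ G : ℝ, ∀ f, |g f| ≤ G) →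
        Tendsto (fun i => logAvg (fun n => ∫ f, g f ∂(lawH n : Measure C(unitInterval, ℂ))) (φ i))
          atTop (𝓝 (∫ f, g f ∂μ))))) ∧
    -- convergence in law implies almost sure convergence of the averages
    (∀ μ : ProbabilityMeasure C(unitInterval, ℂ), Tendsto lawH atTop (𝓝 μ) →
      ∀ᵐ ω ∂perc, ∀ g : C(unitInterval, ℂ) → ℝ, Continuous g → (∃ G : ℝ, ∀ f, |g f| ≤ G) →
        Tendsto (logAvg fun n => g (curve n ω)) atTop (𝓝 (∫ f, g f ∂μ))) := by
  have hmain : ∀ᵐ ω ∂perc, ∀ g : C(unitInterval, ℂ) → ℝ, Continuous g →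
      (∃ G : ℝ, ∀ f, |g f| ≤ G) →
      Tendsto (fun N => logAvg (fun n => g (curve n ω)) N -
        logAvg (fun n => ∫ f, g f ∂(lawH n : Measure C(unitInterval, ℂ))) N) atTop (𝓝 0) := by
    filter_upwards [aslt] with ω hω g gc hb
    exact (hω g gc hb).congr fun N => lav_eq g gc N ω
  refine ⟨cov, hmain, ?_, ?_⟩
  · filter_upwards [hmain] with ω hω φ hφ μ
    constructor
    · intro h g gc hb
      have h1 := (h g gc hb).sub ((hω g gc hb).comp hφ)
      rw [sub_zero] at h1
      refine h1.congr fun i => ?_
      simp only [Function.comp_apply]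
      ring
    · intro h g gc hb
      have h1 := (h g gc hb).add ((hω g gc hb).comp hφ)
      rw [add_zero] at h1
      refine h1.congr fun i => ?_
      simp only [Function.comp_apply]
      ring
  · intro μ hμ
    filter_upwards [hmain] with ω hω g gc hb
    obtain ⟨G, hG⟩ := hb
    have h1 : Tendsto (fun n => ∫ f, g f ∂(lawH n : Measure C(unitInterval, ℂ))) atTop
        (𝓝 (∫ f, g f ∂(μ : Measure C(unitInterval, ℂ)))) := by
      have h2 := ProbabilityMeasure.tendsto_iff_forall_integral_tendsto.1 hμ
      exact h2 (BoundedContinuousFunction.ofNormedAddCommGroup g gc G fun f => by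
        rw [Real.norm_eq_abs]; exact hG f)
    have h3 := (logAvg_tendsto h1).add (hω g gc ⟨G, hG⟩)
    rw [add_zero] at h3
    refine h3.congr fun i => ?_
    ring

end Pool.Agent.Results.MP_6c8efb_pr.AlmostSureLimit
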