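import Pool.Agent.Q218.LL.Germ

/-!
# The set of all scaling limits of the exploration path in its natural time

Critical bond percolation on `ℤ × ℕ`, the edges `[x, x + 1]` of the real axis open for `x < 0` and
closed for `x ≥ 0`. The exploration path starts next to the origin and keeps the open cluster `C_-`
of the negative half-axis on its left; `lawH n` is the law of the curve `n ^ (-4/7) γ(n t)`,
`0 ≤ t ≤ 1`. A limit law is a limit of `lawH` along a sequence which tends to infinity.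

* The set of limit laws is nonempty, compact and connected. Either `lawH` converges or there are
  uncountably many limit laws.
* Scaling: `f ↦ s ^ (-4/7) f(s t)` maps the set of limit laws onto itself. If `lawH` converges
  along a sequence `k j` with `k (j + 1) ≤ A k j`, then all limit laws are images of the limit `μ`
  under scalings with `s ∈ [1/A, 1]`; if `k (j + 1) / k j → 1`, then `lawH` converges.
* Mixing: for all limit laws, the curve and its part up to time `s` are independent up to `C s ^ c`.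
* Zero-one law at the starting point: under every limit law, all events which only depend on the
  germ of the curve at time `0` (in particular all events which are invariant under scaling) have
  probability `0` or `1`.

Definitions: `Pool.Agent.H984R4.HN.HPDefs` (`Conf`, `perc`, `opn`, `step`, `path`, `place`, `gam`,
`curve`), `Pool.Agent.H984R4.HN.FinalH` (`lawH`), `Pool.Agent.H984R4.NP.Model` (`pl`, `clamp`).
-/

set_option autoImplicit false

namespace Pool.Agent.Results.MP_6c8efb_pr.LimitLaws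

open H984H MeasureTheory Filter Topology

/-- `μ` is a limit law of the rescaled exploration path. -/
def IsLimitLaw (μ : ProbabilityMeasure C(unitInterval, ℂ)) : Prop :=
  ∃ φ : ℕ → ℕ, Tendsto φ atTop atTop ∧ Tendsto (fun i => lawH (φ i)) atTop (𝓝 μ)

/-- `ν` is the law of the rescaled curve `s ^ (-4/7) f(s t)`, where `f` has law `μ`. -/
def IsScaled (s : ℝ) (μ ν : ProbabilityMeasure C(unitInterval, ℂ)) : Prop :=
  ∃ T : C(unitInterval, ℂ) → C(unitInterval, ℂ), Measurable T ∧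
    (∀ (f : C(unitInterval, ℂ)) (t u : unitInterval), (u : ℝ) = s * t →
      T f t = ((s ^ (-(4/7) : ℝ) : ℝ) : ℂ) * f u) ∧
    (ν : Measure C(unitInterval, ℂ)) = (μ : Measure C(unitInterval, ℂ)).map T

theorem isScaled_pushS {s : ℝ} (hs : 0 < s) (hs1 : s ≤ 1)
    (μ : ProbabilityMeasure C(unitInterval, ℂ)) :
    IsScaled s μ (Pool.Agent.Q218.LL.pushS ⟨s, hs⟩ μ) := by
  refine ⟨Pool.Agent.Q218.LL.Sc s, (Pool.Agent.Q218.LL.Sc_cont hs).measurable, ?_, rfl⟩
  intro f t u hu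
  rw [Pool.Agent.Q218.LL.Sc_apply]
  have : Pool.Agent.Q218.LL.rep s t = u := by
    apply Subtype.ext
    rw [Pool.Agent.Q218.LL.rep_coe hs.le hs1, hu]
  rw [this]

theorem result :
    -- the set of limit laws
    ({μ | IsLimitLaw μ}.Nonempty ∧ IsCompact {μ | IsLimitLaw μ} ∧ IsConnected {μ | IsLimitLaw μ} ∧
      ((∃ μ, Tendsto lawH atTop (𝓝 μ)) ∨ ¬ {μ | IsLimitLaw μ}.Countable)) ∧
    -- scaling
    (∀ s : ℝ, 0 < s → s ≤ 1 →
      (∀ μ, IsLimitLaw μ → ∃ ν, IsLimitLaw ν ∧ IsScaled s μ ν) ∧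
      (∀ ν, IsLimitLaw ν → ∃ μ, IsLimitLaw μ ∧ IsScaled s μ ν)) ∧
    -- sparse sequences
    (∀ k : ℕ → ℕ, Tendsto k atTop atTop → ∀ μ, Tendsto (fun j => lawH (k j)) atTop (𝓝 μ) →
      (∀ A : ℝ, 1 ≤ A → (∀ᶠ j in atTop, (k (j + 1) : ℝ) ≤ A * k j) →
        ∀ ν, IsLimitLaw ν → ∃ s : ℝ, 1 / A ≤ s ∧ s ≤ 1 ∧ IsScaled s μ ν) ∧
      (Tendsto (fun j => (k (j + 1) : ℝ) / k j) atTop (𝓝 1) → Tendsto lawH atTop (𝓝 μ))) ∧
    -- mixing
    (∃ C c : ℝ, 0 < C ∧ 0 < c ∧ ∀ μ, IsLimitLaw μ → ∀ s : ℝ, 0 < s → s ≤ 1 →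
      ∀ h : C(unitInterval, ℂ) → ℝ, Continuous h → (∀ f, |h f| ≤ 1) →
      (∀ f f' : C(unitInterval, ℂ), (∀ t : unitInterval, (t : ℝ) ≤ s → f t = f' t) → h f = h f') →
      ∀ g : C(unitInterval, ℂ) → ℝ, (∀ f, |g f| ≤ 1) → (∀ f f', |g f - g f'| ≤ dist f f') →
      |∫ f, h f * g f ∂(μ : Measure C(unitInterval, ℂ)) -
        (∫ f, h f ∂(μ : Measure C(unitInterval, ℂ))) *
          ∫ f, g f ∂(μ : Measure C(unitInterval, ℂ))| ≤ C * s ^ c) ∧
    -- zero-one law at the starting point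
    (∀ μ, IsLimitLaw μ → ∀ A : Set C(unitInterval, ℂ), MeasurableSet A →
      (∀ f f' : C(unitInterval, ℂ), (∃ s : unitInterval, 0 < s ∧ ∀ t ≤ s, f t = f' t) →
        (f ∈ A ↔ f' ∈ A)) →
      (μ : Measure C(unitInterval, ℂ)) A = 0 ∨ (μ : Measure C(unitInterval, ℂ)) A = 1) := by
  refine ⟨⟨Pool.Agent.Q218.LL.Lims_nonempty, Pool.Agent.Q218.LL.Lims_compact,
    ⟨Pool.Agent.Q218.LL.Lims_nonempty, Pool.Agent.Q218.LL.Lims_preconnected⟩,
    Pool.Agent.Q218.LL.dichotomy⟩, ?_, ?_, Pool.Agent.Q218.LL.mixing, ?_⟩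
  · intro s hs hs1
    refine ⟨fun μ hμ => ⟨_, Pool.Agent.Q218.LL.Lims_scale hμ hs hs1, isScaled_pushS hs hs1 μ⟩,
      fun ν hν => ?_⟩
    obtain ⟨μ, hμ, h⟩ := Pool.Agent.Q218.LL.Lims_unscale hν hs hs1
    exact ⟨μ, hμ, h ▸ isScaled_pushS hs hs1 μ⟩
  · intro k hk μ hμ
    refine ⟨fun A hA hkA ν hν => ?_, fun hk1 => Pool.Agent.Q218.LL.dense_seq hk hk1 hμ⟩
    obtain ⟨s, hs, h1, h2, h3⟩ := Pool.Agent.Q218.LL.sparse hk hA hkA hμ hν
    exact ⟨s, h1, h2, h3 ▸ isScaled_pushS hs h2 μ⟩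
  · intro μ hμ A mA hA
    exact Pool.Agent.Q218.LL.germ hμ mA hA

end Pool.Agent.Results.MP_6c8efb_pr.LimitLaws
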