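import Pool.Agent.Q218.LZ.Cont

/-!
# The scaling limits of the exploration path at small times

Critical bond percolation on `ℤ × ℕ`, the edges `[x, x + 1]` of the real axis open for `x < 0` and
closed for `x ≥ 0`. The exploration path starts next to the origin and keeps the open cluster `C_-`
of the negative half-axis on its left; `lawH n` is the law of the curve `n ^ (-4/7) γ(n t)`,
`0 ≤ t ≤ 1`. A limit law is a limit of `lawH` along a sequence which tends to infinity. For every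
limit law, with `f` the random curve:

* the largest distance `‖f‖` from the origin has tails of order `exp (- x ^ (7/3))` at infinity
  and `exp (- y ^ (-14))` at zero, with constants which do not depend on the limit law;
* law of the iterated logarithm at the starting point: the upper limit of
  `|f(t)| / (t ^ (4/7) (log log (1/t)) ^ (3/7))` as `t → 0` is almost surely equal to a number
  `K` which is not random;
* Chung's law of the iterated logarithm at the starting point: the lower limit of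
  `(max_{t ≤ δ} |f(t)|) (log log (1/δ)) ^ (1/14) / δ ^ (4/7)` as `δ → 0` is almost surely equal to
  a number `K` which is not random.

The numbers `K` may depend on the limit law; they lie between two positive constants which do not.

Definitions: `Pool.Agent.H984R4.HN.HPDefs` (`Conf`, `perc`, `opn`, `step`, `path`, `place`, `gam`,
`curve`), `Pool.Agent.H984R4.HN.FinalH` (`lawH`), `Pool.Agent.H984R4.NP.Model` (`pl`, `clamp`).
-/

set_option autoImplicit false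

namespace Pool.Agent.Results.MP_6c8efb_pr.SmallTimes

open H984H MeasureTheory Filter Topology

/-- `μ` is a limit law of the rescaled exploration path. -/
def IsLimitLaw (μ : ProbabilityMeasure C(unitInterval, ℂ)) : Prop :=
  ∃ φ : ℕ → ℕ, Tendsto φ atTop atTop ∧ Tendsto (fun i => lawH (φ i)) atTop (𝓝 μ)

theorem result :
    -- the tails of the maximal distance from the origin
    (∃ a A D x₀ y₀ : ℝ, 0 < a ∧ 0 < A ∧ 0 < D ∧ 0 < x₀ ∧ 0 < y₀ ∧ ∀ μ, IsLimitLaw μ →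
      (∀ x : ℝ, 0 < x → (μ : Measure C(unitInterval, ℂ)).real {f | x < ‖f‖} ≤
        A * Real.exp (-(a * x ^ (7/3 : ℝ)))) ∧
      (∀ x : ℝ, x₀ ≤ x → Real.exp (-(D * x ^ (7/3 : ℝ))) ≤
        (μ : Measure C(unitInterval, ℂ)).real {f | x ≤ ‖f‖}) ∧
      (∀ y : ℝ, 0 < y → (μ : Measure C(unitInterval, ℂ)).real {f | ‖f‖ < y} ≤
        A * Real.exp (-(a / y ^ 14))) ∧
      (∀ y : ℝ, 0 < y → y ≤ y₀ → Real.exp (-(D / y ^ 14)) ≤
        (μ : Measure C(unitInterval, ℂ)).real {f | ‖f‖ ≤ y})) ∧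
    -- the law of the iterated logarithm at the starting point
    (∃ c C : ℝ, 0 < c ∧ ∀ μ, IsLimitLaw μ → ∃ K : ℝ, c ≤ K ∧ K ≤ C ∧
      ∀ᵐ f ∂(μ : Measure C(unitInterval, ℂ)), ∀ ε : ℝ, 0 < ε →
        (∃ δ₀ : ℝ, 0 < δ₀ ∧ ∀ t : unitInterval, 0 < (t : ℝ) → (t : ℝ) ≤ δ₀ →
          ‖f t‖ ≤ (K + ε) * ((t : ℝ) ^ (4/7 : ℝ) * Real.log (Real.log (1 / t)) ^ (3/7 : ℝ))) ∧
        (∀ δ₀ : ℝ, 0 < δ₀ → ∃ t : unitInterval, 0 < (t : ℝ) ∧ (t : ℝ) ≤ δ₀ ∧
          (K - ε) * ((t : ℝ) ^ (4/7 : ℝ) * Real.log (Real.log (1 / t)) ^ (3/7 : ℝ)) ≤ ‖f t‖)) ∧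
    -- Chung's law of the iterated logarithm at the starting point
    (∃ c C : ℝ, 0 < c ∧ ∀ μ, IsLimitLaw μ → ∃ K : ℝ, c ≤ K ∧ K ≤ C ∧
      ∀ᵐ f ∂(μ : Measure C(unitInterval, ℂ)), ∀ ε : ℝ, 0 < ε →
        (∃ δ₀ : ℝ, 0 < δ₀ ∧ ∀ δ : ℝ, 0 < δ → δ ≤ δ₀ → ∃ t : unitInterval, (t : ℝ) ≤ δ ∧
          (K - ε) * (δ ^ (4/7 : ℝ) * Real.log (Real.log (1 / δ)) ^ (-(1/14) : ℝ)) ≤ ‖f t‖) ∧
        (∀ δ₀ : ℝ, 0 < δ₀ → ∃ δ : ℝ, 0 < δ ∧ δ ≤ δ₀ ∧ ∀ t : unitInterval, (t : ℝ) ≤ δ →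
          ‖f t‖ ≤ (K + ε) * (δ ^ (4/7 : ℝ) * Real.log (Real.log (1 / δ)) ^ (-(1/14) : ℝ)))) := by
  refine ⟨?_, ?_, ?_⟩
  · obtain ⟨a, A, D, x0, y0, ha, hA, hD, hx0, hy0, h⟩ := Pool.Agent.Q218.LZ.tails
    exact ⟨a, A, D, x0, y0, ha, hA, hD, by linarith, hy0, h⟩
  · obtain ⟨c, C, hc, h⟩ := Pool.Agent.Q218.LZ.fast_const
    refine ⟨c, C, hc, fun μ hμ => ?_⟩
    obtain ⟨K, hK1, hK2, hK⟩ := h μ hμ
    refine ⟨K, hK1, hK2, ?_⟩
    have hK0 : 0 < K := hc.trans_le hK1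
    filter_upwards [hK] with f hf ε hε
    have hf0 : f 0 = 0 := Pool.Agent.Q218.LZ.start_zero (hf 1 one_pos).1
    constructor
    · obtain ⟨δ₀, hδ₀, hδ₁, h1⟩ := Pool.Agent.Q218.LZ.up_cont hK0 (fun ε hε => (hf ε hε).1) hε
      refine ⟨δ₀, hδ₀, fun t ht htδ => ?_⟩
      refine (Pool.Agent.Q218.LZ.le_Sc ht t.2.2 f le_rfl).trans ?_
      have h2 := mul_le_mul_of_nonneg_left (h1 t ht htδ)
        (show 0 ≤ (t : ℝ) ^ (4/7 : ℝ) by positivity)
      refine h2.trans (le_of_eq ?_)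
      unfold Pool.Agent.Q218.LZ.L2
      ring
    · intro δ₀ hδ₀
      exact Pool.Agent.Q218.LZ.io_cont (fun ε hε => (hf ε hε).2) hf0 hε hδ₀
  · obtain ⟨c, C, hc, h⟩ := Pool.Agent.Q218.LZ.slow_const
    refine ⟨c, C, hc, fun μ hμ => ?_⟩
    obtain ⟨K, hK1, hK2, hK⟩ := h μ hμ
    refine ⟨K, hK1, hK2, ?_⟩
    have hK0 : 0 < K := hc.trans_le hK1
    filter_upwards [hK] with f hf ε hε
    constructor
    · obtain ⟨δ₀, hδ₀, hδ₁, h1⟩ := Pool.Agent.Q218.LZ.low_cont hK0 (fun ε hε => (hf ε hε).1) hε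
      refine ⟨δ₀, hδ₀, fun δ hδ hδδ => ?_⟩
      obtain ⟨t, ht, htf⟩ := Pool.Agent.Q218.LZ.exists_Sc hδ (hδδ.trans hδ₁) f
      refine ⟨t, ht, ?_⟩
      rw [htf]
      have h2 := mul_le_mul_of_nonneg_left (h1 δ hδ hδδ)
        (show 0 ≤ δ ^ (4/7 : ℝ) by positivity)
      refine (le_of_eq ?_).trans h2
      unfold Pool.Agent.Q218.LZ.L2
      ring
    · intro δ₀ hδ₀
      obtain ⟨δ, hδ, h1, h2, h3⟩ := Pool.Agent.Q218.LZ.io_slow (fun ε hε => (hf ε hε).2) hε hδ₀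
      refine ⟨δ, hδ, h1, fun t ht => ?_⟩
      refine (Pool.Agent.Q218.LZ.le_Sc hδ h2 f ht).trans ?_
      have h4 := mul_le_mul_of_nonneg_left h3 (show 0 ≤ δ ^ (4/7 : ℝ) by positivity)
      refine h4.trans (le_of_eq ?_)
      unfold Pool.Agent.Q218.LZ.L2
      ring

end Pool.Agent.Results.MP_6c8efb_pr.SmallTimes
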