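import Pool.Agent.Q218.ZO.Lil
import Pool.Agent.Results.MP_6c8efb_pr.IteratedLogarithm

/-!
# A zero-one law for the exploration path of critical bond percolation on `ℤ²`

Critical bond percolation on `ℤ × ℕ`, the edges `[x, x + 1]` of the real axis open for `x < 0` and
closed for `x ≥ 0`. The exploration path starts next to the origin and keeps the open cluster `C_-`
of the negative half-axis on its left; `gam ω k` is its point after `k` steps and `reach n ω` is its
greatest distance from the origin in the first `n` steps.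

* Asymptotic coupling: almost surely, for all configurations which differ from `ω` at finitely many
  edges, the path is the same as the path of `ω` from some time on, up to a shift of time.
* Zero-one law: every event which does not change under a shift of time of the path has
  probability `0` or `1`.
* The constants in the laws of the iterated logarithm are not random: there are numbers
  `K₁, K₂ > 0` such that almost surely
  `limsup |gam n| / (n ^ (4/7) (log log n) ^ (3/7)) = limsup reach n / (same) = K₁` and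
  `liminf reach n (log log n) ^ (1/14) / n ^ (4/7) = K₂`.

Definitions: `Pool.Agent.H984R4.HN.HPDefs` (`Conf`, `perc`, `opn`, `step`, `path`, `place`, `gam`,
`reach`). The orders of magnitude in the laws of the iterated logarithm are those of the starting
file `IteratedLogarithm`.
-/

set_option autoImplicit false

namespace Pool.Agent.Results.MP_6c8efb_pr.ZeroOneLaw

open H984H MeasureTheory Filter Topology Pool.Agent.Q218.ZO

/-- The upper normalisation `n ^ (4/7) (log log n) ^ (3/7)`. -/
noncomputable def up (n : ℕ) : ℝ := (n : ℝ) ^ (4/7 : ℝ) * (Real.log (Real.log n)) ^ (3/7 : ℝ)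

/-- The lower normalisation `n ^ (4/7) (log log n) ^ (-1/14)`. -/
noncomputable def lo (n : ℕ) : ℝ := (n : ℝ) ^ (4/7 : ℝ) / (Real.log (Real.log n)) ^ (1/14 : ℝ)

theorem ll_pos : ∀ᶠ n : ℕ in atTop, 0 < Real.log (Real.log (n : ℝ)) := by
  have h := Real.tendsto_log_atTop.comp (Real.tendsto_log_atTop.comp
    (tendsto_natCast_atTop_atTop (R := ℝ)))
  exact h.eventually_gt_atTop 0

theorem up_pos : ∀ᶠ n : ℕ in atTop, 0 < up n := by
  filter_upwards [ll_pos, eventually_gt_atTop 0] with n h1 h2
  have : (0 : ℝ) < n := by exact_mod_cast h2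
  unfold up
  positivity

theorem lo_pos : ∀ᶠ n : ℕ in atTop, 0 < lo n := by
  filter_upwards [ll_pos, eventually_gt_atTop 0] with n h1 h2
  have : (0 : ℝ) < n := by exact_mod_cast h2
  unfold lo
  positivity

theorem n_ratio : Tendsto (fun n : ℕ => ((n + 1 : ℕ) : ℝ) / n) atTop (𝓝 1) := by
  have h := (tendsto_one_div_atTop_nhds_zero_nat (𝕜 := ℝ)).const_add 1
  rw [add_zero] at h
  refine h.congr' ?_
  filter_upwards [eventually_gt_atTop 0] with n hn
  have : (0 : ℝ) < n := by exact_mod_cast hn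
  push_cast
  field_simp

theorem ll_ratio : Tendsto (fun n : ℕ => Real.log (Real.log ((n + 1 : ℕ) : ℝ)) /
    Real.log (Real.log (n : ℝ))) atTop (𝓝 1) := by
  have h1 : Tendsto (fun n : ℕ => 1 + Real.log 2 / Real.log (Real.log (n : ℝ))) atTop (𝓝 1) := by
    have h := Real.tendsto_log_atTop.comp (Real.tendsto_log_atTop.comp
      (tendsto_natCast_atTop_atTop (R := ℝ)))
    have h2 : Tendsto (fun n : ℕ => Real.log 2 / Real.log (Real.log (n : ℝ))) atTop (𝓝 0) :=
      tendsto_const_nhds.div_atTop h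
    simpa using h2.const_add 1
  refine tendsto_of_tendsto_of_tendsto_of_le_of_le' tendsto_const_nhds h1 ?_ ?_
  · filter_upwards [ll_pos, eventually_ge_atTop 3] with n hn h3
    have h3' : (3 : ℝ) ≤ n := by exact_mod_cast h3
    rw [le_div_iff₀ hn, one_mul]
    have hl : 0 < Real.log (n : ℝ) := Real.log_pos (by linarith)
    apply Real.log_le_log hl
    apply Real.log_le_log (by linarith)
    push_cast
    linarith
  · filter_upwards [ll_pos, eventually_ge_atTop 3] with n hn h3
    have h3' : (3 : ℝ) ≤ n := by exact_mod_cast h3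
    rw [div_le_iff₀ hn, add_mul, one_mul, div_mul_cancel₀ _ hn.ne']
    have hl : 0 < Real.log (n : ℝ) := Real.log_pos (by linarith)
    have h4 : Real.log ((n + 1 : ℕ) : ℝ) ≤ 2 * Real.log n := by
      have : Real.log ((n + 1 : ℕ) : ℝ) ≤ Real.log ((n : ℝ) ^ 2) := by
        apply Real.log_le_log (by positivity)
        push_cast
        nlinarith
      rwa [Real.log_pow, Nat.cast_ofNat] at this
    have h5 : 0 < Real.log ((n + 1 : ℕ) : ℝ) := Real.log_pos (by push_cast; linarith)
    calc Real.log (Real.log ((n + 1 : ℕ) : ℝ)) ≤ Real.log (2 * Real.log n) :=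
          Real.log_le_log h5 h4
      _ = Real.log 2 + Real.log (Real.log n) := Real.log_mul (by norm_num) hl.ne'
      _ = _ := add_comm _ _

theorem pow_ratio {f : ℕ → ℝ} (hf : ∀ᶠ n in atTop, 0 < f n)
    (h : Tendsto (fun n => f (n + 1) / f n) atTop (𝓝 1)) (s : ℝ) :
    Tendsto (fun n => f (n + 1) ^ s / f n ^ s) atTop (𝓝 1) := by
  have h1 := h.rpow_const (p := s) (Or.inl one_ne_zero)
  rw [Real.one_rpow] at h1
  refine h1.congr' ?_
  filter_upwards [hf, (tl 1).eventually hf] with n g1 g2
  rw [add_comm] at g2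
  rw [Real.div_rpow g2.le g1.le]

theorem up_ratio : Tendsto (fun n => up (n + 1) / up n) atTop (𝓝 1) := by
  have h1 := pow_ratio (f := fun n : ℕ => (n : ℝ))
    ((eventually_gt_atTop 0).mono fun n hn => by exact_mod_cast hn) n_ratio (4/7)
  have h2 := pow_ratio (f := fun n : ℕ => Real.log (Real.log (n : ℝ))) ll_pos ll_ratio (3/7)
  have h3 := h1.mul h2
  rw [mul_one] at h3
  refine h3.congr fun n => ?_
  unfold up
  rw [div_mul_div_comm]

theorem lo_ratio : Tendsto (fun n => lo (n + 1) / lo n) atTop (𝓝 1) := by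
  have h1 := pow_ratio (f := fun n : ℕ => (n : ℝ))
    ((eventually_gt_atTop 0).mono fun n hn => by exact_mod_cast hn) n_ratio (4/7)
  have h2 := pow_ratio (f := fun n : ℕ => Real.log (Real.log (n : ℝ))) ll_pos ll_ratio (1/14)
  have h3 := h1.div h2 one_ne_zero
  rw [div_one] at h3
  refine h3.congr fun n => ?_
  rw [Pi.div_apply]
  unfold lo
  rw [div_div_div_comm]

theorem up_tendsto : Tendsto up atTop atTop := by
  have h1 : Tendsto (fun n : ℕ => (n : ℝ) ^ (4/7 : ℝ)) atTop atTop :=
    (tendsto_rpow_atTop (by norm_num)).comp tendsto_natCast_atTop_atTop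
  have h := Real.tendsto_log_atTop.comp (Real.tendsto_log_atTop.comp
    (tendsto_natCast_atTop_atTop (R := ℝ)))
  refine tendsto_atTop_mono' atTop ?_ h1
  filter_upwards [h.eventually_ge_atTop 1] with n hn
  have h2 : (1 : ℝ) ≤ (Real.log (Real.log n)) ^ (3/7 : ℝ) := Real.one_le_rpow hn (by norm_num)
  have h3 : (0 : ℝ) ≤ (n : ℝ) ^ (4/7 : ℝ) := by positivity
  unfold up
  nlinarith

theorem up_mono {k n : ℕ} (hk : 3 ≤ k) (h : k ≤ n) : up k ≤ up n := by
  have h3 : (3 : ℝ) ≤ k := by exact_mod_cast hk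
  have hkn : (k : ℝ) ≤ n := by exact_mod_cast h
  have hl : 1 ≤ Real.log (k : ℝ) := by
    rw [Real.le_log_iff_exp_le (by linarith)]
    exact (Real.exp_one_lt_d9.le.trans (by norm_num)).trans h3
  have hll : 0 ≤ Real.log (Real.log (k : ℝ)) := Real.log_nonneg hl
  unfold up
  gcongr

theorem result :
    -- asymptotic coupling
    (∀ᵐ ω ∂perc, ∀ ω' : Conf, {e | ω e ≠ ω' e}.Finite →
      ∃ a b : ℕ, ∀ n, gam ω (a + n) = gam ω' (b + n)) ∧
    -- zero-one law
    (∀ B : Set (ℕ → ℂ), MeasurableSet B →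
      (∀ x : ℕ → ℂ, x ∈ B ↔ (fun n => x (n + 1)) ∈ B) →
      perc {ω | gam ω ∈ B} = 0 ∨ perc {ω | gam ω ∈ B} = 1) ∧
    -- the constants in the laws of the iterated logarithm
    ∃ K₁ K₂ : ℝ, 0 < K₁ ∧ 0 < K₂ ∧ ∀ᵐ ω ∂perc, ∀ ε : ℝ, 0 < ε →
      (∀ᶠ n : ℕ in atTop, reach n ω ≤
        (K₁ + ε) * ((n : ℝ) ^ (4/7 : ℝ) * (Real.log (Real.log n)) ^ (3/7 : ℝ))) ∧
      (∃ᶠ n : ℕ in atTop,
        (K₁ - ε) * ((n : ℝ) ^ (4/7 : ℝ) * (Real.log (Real.log n)) ^ (3/7 : ℝ)) ≤ ‖gam ω n‖) ∧
      (∀ᶠ n : ℕ in atTop,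
        (K₂ - ε) * ((n : ℝ) ^ (4/7 : ℝ) / (Real.log (Real.log n)) ^ (1/14 : ℝ)) ≤ reach n ω) ∧
      (∃ᶠ n : ℕ in atTop, reach n ω ≤
        (K₂ + ε) * ((n : ℝ) ^ (4/7 : ℝ) / (Real.log (Real.log n)) ^ (1/14 : ℝ))) := by
  refine ⟨gam_coupling, fun B mB hB => zo_path mB hB, ?_⟩
  obtain ⟨c, C, hc, hC, hlil⟩ := IteratedLogarithm.result
  -- the upper constant
  obtain ⟨K₁, hK1, -, h1⟩ := const_of (φ := up) up_pos (U := fun ω n => ‖gam ω n‖)
    (fun q => zo_LS up_pos up_ratio (fun n => Disp_meas n)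
      (fun ω ω' a b h => Eventually.of_forall fun n => by
        show ‖gam ω (a + n)‖ = ‖gam ω' (b + n)‖
        rw [h n]) q)
    (fun n => Disp_meas n) (c := c) (C := C)
    (by
      filter_upwards [hlil] with ω hω
      filter_upwards [hω.1] with n hn
      refine (norm_gam_le n ω).trans (hn.trans (le_of_eq ?_))
      unfold up
      ring)
    (by
      filter_upwards [hlil] with ω hω
      refine hω.2.1.mono fun n hn => ?_
      refine le_trans (le_of_eq ?_) hn
      unfold up
      ring)
  -- the lower constant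
  obtain ⟨K₂, -, hK2, h2⟩ := const_of (φ := lo) lo_pos (U := fun ω n => - reach n ω)
    (fun q => zo_LS lo_pos lo_ratio (fun n => (reach_meas n).neg)
      (fun ω ω' a b h => by
        filter_upwards [reach_eq_of h] with n hn
        show - reach (a + n) ω = - reach (b + n) ω'
        rw [hn]) q)
    (fun n => (reach_meas n).neg) (c := -C) (C := -c)
    (by
      filter_upwards [hlil] with ω hω
      filter_upwards [hω.2.2.1] with n hn
      have h3 : c * (n : ℝ) ^ (4/7 : ℝ) / (Real.log (Real.log n)) ^ (1/14 : ℝ) = c * lo n := by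
        unfold lo
        ring
      rw [h3] at hn
      linarith)
    (by
      filter_upwards [hlil] with ω hω
      refine hω.2.2.2.mono fun n hn => ?_
      have h3 : C * (n : ℝ) ^ (4/7 : ℝ) / (Real.log (Real.log n)) ^ (1/14 : ℝ) = C * lo n := by
        unfold lo
        ring
      rw [h3] at hn
      linarith)
  refine ⟨K₁, -K₂, lt_of_lt_of_le hc hK1, by linarith, ?_⟩
  filter_upwards [h1, h2] with ω g1 g2 ε hε
  refine ⟨?_, (g1 ε hε).2, ?_, ?_⟩
  · obtain ⟨N, hN⟩ := eventually_atTop.1 (g1 ε hε).1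
    have hK : 0 < K₁ + ε := by linarith
    have h3 : ∀ᶠ n in atTop, reach (N + 3) ω ≤ (K₁ + ε) * up n :=
      (up_tendsto.const_mul_atTop hK).eventually_ge_atTop _
    filter_upwards [h3] with n hn
    obtain ⟨k, hk, hk2⟩ := Disp_exists_reach ω n
    rw [← hk2]
    rcases le_or_gt (N + 3) k with h4 | h4
    · refine (hN k (by omega)).trans ?_
      exact mul_le_mul_of_nonneg_left (up_mono (by omega) hk) hK.le
    · exact (le_reach ω h4.le).trans hn
  · filter_upwards [(g2 ε hε).1] with n hn
    have : (-K₂ - ε) * lo n = -((K₂ + ε) * lo n) := by ring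
    show (-K₂ - ε) * lo n ≤ _
    rw [this]
    linarith
  · refine (g2 ε hε).2.mono fun n hn => ?_
    have : (-K₂ + ε) * lo n = -((K₂ - ε) * lo n) := by ring
    show _ ≤ (-K₂ + ε) * lo n
    rw [this]
    linarith

end Pool.Agent.Results.MP_6c8efb_pr.ZeroOneLaw
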